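import Pool.Agent.H89.GR5

set_option autoImplicit false

namespace Pool.Agent.Results.MP_7c306c_al.Homogeneous

open ExteriorAlgebra

/-- A `ℤ₂`-grading of an algebra `R`: `R = A 0 ⊕ A 1` as vector spaces, `A i * A j ⊆ A (i+j)`. -/
def IsZ2Grading {F R : Type*} [Field F] [Ring R] [Algebra F R] (A : ZMod 2 → Submodule F R) :
    Prop :=
  IsCompl (A 0) (A 1) ∧ ∀ i j : ZMod 2, ∀ x ∈ A i, ∀ y ∈ A j, x * y ∈ A (i + j)

theorem result (F : Type*) [Field F] (h2 : ringChar F ≠ 2)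
    (A : ZMod 2 → Submodule F (ExteriorAlgebra F (ℕ →₀ F))) (hA : IsZ2Grading A) :
    ∃ B : ZMod 2 → Submodule F (ExteriorAlgebra F (ℕ →₀ F)), IsZ2Grading B ∧
      (∀ n : ℕ, ι F (Finsupp.single n (1 : F)) ∈ B 0 ∨ ι F (Finsupp.single n (1 : F)) ∈ B 1) ∧
      ∃ f : ExteriorAlgebra F (ℕ →₀ F) ≃ₐ[F] ExteriorAlgebra F (ℕ →₀ F),
        ∀ i : ZMod 2, ∀ x ∈ A i, f x ∈ B i := by
  have h2' : (2 : F) ≠ 0 := Ring.two_ne_zero h2
  obtain ⟨hc, hmul⟩ := hA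
  set φ : ExteriorAlgebra F (ℕ →₀ F) →ₗ[F] ExteriorAlgebra F (ℕ →₀ F) :=
    LinearMap.ofIsCompl hc (A 0).subtype (-(A 1).subtype) with hφ
  have h0 : ∀ x ∈ A 0, φ x = x := fun x hx => LinearMap.ofIsCompl_apply_left hc ⟨x, hx⟩
  have h1 : ∀ x ∈ A 1, φ x = -x := fun x hx => LinearMap.ofIsCompl_apply_right hc ⟨x, hx⟩
  have hdec : ∀ x, ∃ a ∈ A 0, ∃ b ∈ A 1, a + b = x := fun x =>
    Submodule.mem_sup.1 (hc.sup_eq_top ▸ Submodule.mem_top)
  have hφφ : ∀ x, φ (φ x) = x := by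
    intro x
    obtain ⟨a, ha, b, hb, rfl⟩ := hdec x
    rw [map_add, h0 a ha, h1 b hb, map_add, map_neg, h0 a ha, h1 b hb, neg_neg]
  have hφm : ∀ x y, φ (x * y) = φ x * φ y := by
    intro x y
    obtain ⟨a, ha, b, hb, rfl⟩ := hdec x
    obtain ⟨c, hc', d, hd, rfl⟩ := hdec y
    have e1 := h0 _ (hmul 0 0 a ha c hc')
    have e2 := h1 _ (hmul 0 1 a ha d hd)
    have e3 := h1 _ (hmul 1 0 b hb c hc')
    have e4 := h0 _ (hmul 1 1 b hb d hd)
    simp only [add_mul, mul_add, map_add, e1, e2, e3, e4, h0 a ha, h0 c hc', h1 b hb, h1 d hd]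
    noncomm_ring
  have hφ1 : φ 1 = 1 := by
    have := hφm (φ 1) 1
    rw [mul_one, hφφ, one_mul] at this
    exact this.symm
  let Φ : ExteriorAlgebra F (ℕ →₀ F) ≃ₐ[F] ExteriorAlgebra F (ℕ →₀ F) :=
    AlgEquiv.ofAlgHom (AlgHom.ofLinearMap φ hφ1 hφm) (AlgHom.ofLinearMap φ hφ1 hφm)
      (AlgHom.ext hφφ) (AlgHom.ext hφφ)
  obtain ⟨Θ, hΘ⟩ := H89.GR.main h2' Φ (AlgEquiv.ext hφφ)
  refine ⟨fun i => (A i).comap Θ.toLinearMap, ⟨?_, fun i j x hx y hy => ?_⟩, fun n => ?_,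
    Θ.symm, fun i x hx => by simpa using hx⟩
  · exact (Submodule.orderIsoMapComap Θ.toLinearEquiv).symm.isCompl hc
  · have := hmul i j _ hx _ hy
    simpa using this
  · obtain ⟨a, ha, b, hb, hab⟩ := hdec (Θ (H89.GR.e n))
    have h3 : Φ (Θ (H89.GR.e n)) = a - b := by
      change φ _ = _
      rw [← hab, map_add, h0 a ha, h1 b hb, sub_eq_add_neg]
    rcases hΘ n with h | h
    · left
      change Θ (H89.GR.e n) ∈ A 0
      rw [h3, ← hab] at h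
      have : b = 0 := H89.GR.two_cancel h2' (by
        rw [add_zero, ← sub_eq_zero.2 h.symm]; abel)
      rw [← hab, this, add_zero]; exact ha
    · right
      change Θ (H89.GR.e n) ∈ A 1
      rw [h3, ← hab] at h
      have : a = 0 := H89.GR.two_cancel h2' (by
        rw [add_zero, ← sub_eq_zero.2 h]; abel)
      rw [← hab, this, zero_add]; exact hb

end Pool.Agent.Results.MP_7c306c_al.Homogeneous
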